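import Mathlib
import Pool.Agent.Lib.MP_c385f6_ag.DyK.PolyMain
import Pool.Agent.Lib.MP_c385f6_ag.DyK.PlacePoly
import Pool.Agent.Lib.MP_c385f6_ag.DyK.Over
import Pool.Agent.Lib.MP_c385f6_ag.DyK.Norm
import Pool.Agent.Lib.MP_c385f6_ag.DyK.CoverEven
import Pool.Agent.Lib.MP_c385f6_ag.DyK.Value
import Pool.Agent.Lib.MP_c385f6_ag.DyK.Proj
import Pool.Agent.Lib.MP_c385f6_ag.DyK.Rich
import Pool.Agent.Lib.MP_c385f6_ag.DyK.Far
import Pool.Agent.Lib.MP_c385f6_ag.DyK.Local

set_option autoImplicit false

namespace Pool.Agent.Results.MP_c385f6_ag.CofinalCovers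

open Pool.Agent.Lib.MP_c385f6_ag Polynomial IntermediateField

universe u₁ u₂ u₃

/-- `K` is generated over `k` by `w` and `Z`, and `z² = h_z(w)` for `z ∈ Z`, where `h_z` is a
nonzero polynomial with all prime factors among those of `f` and the `X - t`, `t ∈ T`, each `t ∈ T`
is a zero of odd order of some `h_z`, and some `h_z` has odd degree. -/
def IsCover {k K : Type*} [Field k] [Field K] [Algebra k K] (f : k[X]) (T : Finset k) (w : K)
    (Z : Set K) (h : Z → k[X]) : Prop :=
  (∀ z, PrimesIn f T (h z)) ∧ (∀ z : Z, (z : K) ^ 2 = aeval w (h z)) ∧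
    (∀ t ∈ T, ∃ z, Odd ((h z).rootMultiplicity t)) ∧ (∃ z, Odd (h z).natDegree) ∧
      adjoin k (insert w Z) = ⊤

/-- The field `E` between `k` and `K` has a `k`-rational place at which `w = x`. -/
def HasPlaceAt {k K : Type*} [Field k] [Field K] [Algebra k K] (E : IntermediateField k K)
    (w : K) (x : k) : Prop :=
  ∃ B : ValuationSubring E, IsRationalPlace k E B ∧
    ∀ y : E, (y : K) = w - algebraMap k K x → B.valuation y < 1

/-- `a` is the square of an element of `K^ur` fixed by `s`. -/
def IsFixedSquare {k K Ω : Type*} [Field k] [Field K] [Field Ω] [Algebra k K] [Algebra k Ω]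
    [Algebra K Ω] [IsScalarTower k K Ω] (s : AbsGal k Ω →* PiOne k K Ω) (a : Ω) : Prop :=
  ∃ Y : maxUnramified k K Ω, (∀ g, s g Y = Y) ∧ (Y : Ω) ^ 2 = a

/-- Let `k` be a finite extension of `ℚ_2` and `f ∈ k[X]` a nonzero polynomial. There is a finite
set `T ⊆ k`, containing the zeros of `f` in `k`, such that for every field `K` over `k`, every
`w ∈ K` transcendental over `k` and every algebraic closure `Ω` of `K`:

* if `K = k(w, Z)` is the function field of an elementary abelian 2-cover `X` of the line, that is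
`z² = h_z(w)` for `z ∈ Z`, where `h_z` is a nonzero polynomial with all prime factors among those
of `f` and the `X - t`, `t ∈ T`, and if `X` is ramified over all `t ∈ T` and over infinity (each
`t ∈ T` is a zero of odd order of some `h_z`, and some `h_z` has odd degree), then
`π₁(X) → Gal_k` has a section if and only if `X` has a `k`-rational point;

* if all fibres of the map to the line given by `w` over `T` and infinity are even then for every
section `s` of `π₁(K) = Gal(K^ur / K) → Gal_k` there is `x ∈ k`, `x ∉ T`, such that the subfield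
of `K` generated by `w` and all square roots in `K` of functions `h(w)`, `h` a polynomial as
before, has a `k`-rational place at which `w = x`, and `(x - t)(w - t)` is, for all `t ∈ T`, the
square of an element of `K^ur` fixed by `s`. -/
theorem result (k : Type u₁) [Field k] [Algebra ℚ_[2] k] [FiniteDimensional ℚ_[2] k]
    (f : k[X]) (hf : f ≠ 0) : ∃ T : Finset k, (∀ a, f.eval a = 0 → a ∈ T) ∧
    ∀ (K : Type u₂) (Ω : Type u₃) [Field K] [Field Ω] [Algebra k K] [Algebra k Ω] [Algebra K Ω]
      [IsScalarTower k K Ω] [IsAlgClosure K Ω] (w : K), Transcendental k w →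
      ((∃ Z h, IsCover f T w Z h) → ((∃ s : AbsGal k Ω →* PiOne k K Ω, IsSection k K Ω s) ↔
        ∃ B : ValuationSubring K, IsRationalPlace k K B)) ∧
      (EvenFibres k K T w → ∀ s : AbsGal k Ω →* PiOne k K Ω, IsSection k K Ω s →
        ∃ x : k, x ∉ T ∧ HasPlaceAt (polyRootField k K f T w) w x ∧
          ∀ t ∈ T, IsFixedSquare s
            (algebraMap k Ω (x - t) * algebraMap K Ω (w - algebraMap k K t))) := by
  haveI : CharZero k := DyK.charZero_of_algebra
  obtain ⟨T, hroot, hcard, hcomp, hrich⟩ := DyK.stRich k (fun A => DyK.stNet A)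
    (fun _ X => DyK.sys_real X) (fun A F => DyK.stFar A F) f hf
  refine ⟨T, hroot, fun K Ω _ _ _ _ _ _ _ w hw => ?_⟩
  have hProj : ∀ τ : Ω, DyK.StProj k k⟮τ⟯ := by
    intro τ
    by_cases hτ : IsIntegral k τ
    · haveI : FiniteDimensional k k⟮τ⟯ := adjoin.finiteDimensional hτ
      exact DyK.stProj k k⟮τ⟯
    · intro _ g _ _
      refine ⟨1, ?_⟩
      rw [one_pow]
      refine Algebra.norm_eq_one_of_not_module_finite (fun h => hτ ?_) g
      have h1 : IsIntegral k (AdjoinSimple.gen k τ) :=
        haveI := h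
        Algebra.IsIntegral.isIntegral _
      exact (AdjoinSimple.isIntegral_gen k τ).1 h1
  constructor
  · rintro ⟨Z, h, hh, hz, hcov, hodd, htop⟩
    exact DyK.poly_cover hcard hcomp hroot hrich (DyK.stOver k K Ω) (DyK.stNorm k K Ω) hProj
      (DyK.stValue k K Ω) (DyK.stPlacePoly k K) (DyK.stCoverEven k K) hw Z h hh hz hcov hodd htop
  · intro hE s hs
    exact DyK.poly_place hcard hcomp hroot hrich (DyK.stOver k K Ω) (DyK.stNorm k K Ω) hProj
      (DyK.stValue k K Ω) (DyK.stPlacePoly k _) hw hE hs

end Pool.Agent.Results.MP_c385f6_ag.CofinalCovers
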