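import Mathlib
import Pool.Agent.Lib.MP_c385f6_ag.Bc.Add
import Pool.Agent.Lib.MP_c385f6_ag.Bc.Alt
import Pool.Agent.Lib.MP_c385f6_ag.Bc.CPT
import Pool.Agent.Lib.MP_c385f6_ag.Bc.Comp
import Pool.Agent.Lib.MP_c385f6_ag.Bc.Coord
import Pool.Agent.Lib.MP_c385f6_ag.Bc.ExW
import Pool.Agent.Lib.MP_c385f6_ag.Bc.Fin
import Pool.Agent.Lib.MP_c385f6_ag.Bc.Gnr
import Pool.Agent.Lib.MP_c385f6_ag.Bc.Hom
import Pool.Agent.Lib.MP_c385f6_ag.Bc.Imp
import Pool.Agent.Lib.MP_c385f6_ag.Bc.Int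
import Pool.Agent.Lib.MP_c385f6_ag.Bc.Lim
import Pool.Agent.Lib.MP_c385f6_ag.Bc.Loc
import Pool.Agent.Lib.MP_c385f6_ag.Bc.Main
import Pool.Agent.Lib.MP_c385f6_ag.Bc.Mul
import Pool.Agent.Lib.MP_c385f6_ag.Bc.NearR
import Pool.Agent.Lib.MP_c385f6_ag.Bc.Net
import Pool.Agent.Lib.MP_c385f6_ag.Bc.Nm
import Pool.Agent.Lib.MP_c385f6_ag.Bc.One
import Pool.Agent.Lib.MP_c385f6_ag.Bc.PM
import Pool.Agent.Lib.MP_c385f6_ag.Bc.Pair
import Pool.Agent.Lib.MP_c385f6_ag.Bc.Plc
import Pool.Agent.Lib.MP_c385f6_ag.Bc.Prim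
import Pool.Agent.Lib.MP_c385f6_ag.Bc.Res
import Pool.Agent.Lib.MP_c385f6_ag.Bc.Split
import Pool.Agent.Lib.MP_c385f6_ag.Bc.Supp
import Pool.Agent.Lib.MP_c385f6_ag.Bc.Sur
import Pool.Agent.Lib.MP_c385f6_ag.Bc.Unif
import Pool.Agent.Lib.MP_c385f6_ag.Bc.Unr
import Pool.Agent.Lib.MP_c385f6_ag.Cpl.A1
import Pool.Agent.Lib.MP_c385f6_ag.Cpl.A2
import Pool.Agent.Lib.MP_c385f6_ag.Cpl.A3
import Pool.Agent.Lib.MP_c385f6_ag.Cpl.Alpha
import Pool.Agent.Lib.MP_c385f6_ag.Cpl.Baire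
import Pool.Agent.Lib.MP_c385f6_ag.Cpl.Bdd
import Pool.Agent.Lib.MP_c385f6_ag.Cpl.Chain
import Pool.Agent.Lib.MP_c385f6_ag.Cpl.Chord
import Pool.Agent.Lib.MP_c385f6_ag.Cpl.Cpl
import Pool.Agent.Lib.MP_c385f6_ag.Cpl.Desc
import Pool.Agent.Lib.MP_c385f6_ag.Cpl.Dl
import Pool.Agent.Lib.MP_c385f6_ag.Cpl.Dual
import Pool.Agent.Lib.MP_c385f6_ag.Cpl.E0
import Pool.Agent.Lib.MP_c385f6_ag.Cpl.Ext
import Pool.Agent.Lib.MP_c385f6_ag.Cpl.Frame
import Pool.Agent.Lib.MP_c385f6_ag.Cpl.Gen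
import Pool.Agent.Lib.MP_c385f6_ag.Cpl.Hens
import Pool.Agent.Lib.MP_c385f6_ag.Cpl.Inv
import Pool.Agent.Lib.MP_c385f6_ag.Cpl.LF
import Pool.Agent.Lib.MP_c385f6_ag.Cpl.Lin
import Pool.Agent.Lib.MP_c385f6_ag.Cpl.Move
import Pool.Agent.Lib.MP_c385f6_ag.Cpl.NR
import Pool.Agent.Lib.MP_c385f6_ag.Cpl.Rat
import Pool.Agent.Lib.MP_c385f6_ag.Cpl.RatAll
import Pool.Agent.Lib.MP_c385f6_ag.Cpl.Rich
import Pool.Agent.Lib.MP_c385f6_ag.Cpl.Span
import Pool.Agent.Lib.MP_c385f6_ag.Cpl.Step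
import Pool.Agent.Lib.MP_c385f6_ag.Cpl.Sym
import Pool.Agent.Lib.MP_c385f6_ag.Cpl.T3
import Pool.Agent.Lib.MP_c385f6_ag.Cpl.TexR
import Pool.Agent.Lib.MP_c385f6_ag.Cpl.Uniq
import Pool.Agent.Lib.MP_c385f6_ag.Cpl.Ur
import Pool.Agent.Lib.MP_c385f6_ag.Cpl.Val
import Pool.Agent.Lib.MP_c385f6_ag.Cpl.Vn
import Pool.Agent.Lib.MP_c385f6_ag.Semi.Fn

set_option autoImplicit false

namespace Pool.Agent.Results.MP_c385f6_ag.EveryCurve

open Pool.Agent.Lib.MP_c385f6_ag Pool.Agent.Lib.MP_c385f6_ag.Cpl Polynomial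

universe u v

/-- The curve with function field `K` has a rational point `P` with `w(P) = y` (a rational place of
`K` at which `w - y` vanishes). -/
def HasPoint (k : Type*) {K : Type*} [Field k] [Field K] [Algebra k K] (w : K) (y : k) : Prop :=
  ∃ B : ValuationSubring K, IsRationalPlace k K B ∧ B.valuation (w - algebraMap k K y) < 1

/-- `K₀` is the function field of a curve `X₀` over `k`, and `w` is a nonconstant function on `X₀`
such that the set of the values of `w` at the rational points of `X₀` is an open subset of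
`ℙ¹(k)`. -/
structure OpenImage (p : ℕ) [Fact p.Prime] (k : Type) {K₀ : Type*} [Field k] [Algebra ℚ_[p] k]
    [Field K₀] [Algebra k K₀] (w : K₀) : Prop where
  transcendental : Transcendental k w
  finite : FiniteDimensional (IntermediateField.adjoin k {w}) K₀
  fin : ∀ y₀ : k, HasPoint k w y₀ → ∃ ε : ℝ, 0 < ε ∧ ∀ y : k,
    spectralNorm ℚ_[p] k (y - y₀) < ε → HasPoint k w y
  inf : (∃ B : ValuationSubring K₀, IsRationalPlace k K₀ B ∧ w ∉ B) → ∃ c : ℝ, ∀ y : k,
    c < spectralNorm ℚ_[p] k y → HasPoint k w y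

section
variable (p : ℕ) {k L : Type} {K₀ Ω : Type u} (K : Type u) {ι : Type v} [Field k] [Field L]
  [Field K₀] [Field K] [Field Ω] [Algebra k L] [Algebra k K₀] [Algebra k K] [Algebra k Ω]
  [Algebra L Ω] [Algebra K₀ Ω] [Algebra K Ω]

/-- Let `X → X₀` be a cover of curves over `k` with function fields `K ⊇ K₀`, let `Ω` be an
algebraic closure of `K` (which contains the extension `L` of `k`), and `w ∈ K₀`. Over `L` the
cover becomes abelian of exponent `p` and comes from a cover of the projective line (with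
coordinate `w`): inside `Ω`, the compositum `K L` is generated over `K₀ L` by `p`-th roots `z i` of
the values at `w` of polynomials `h i ≠ 0` over `L`. The cover of the line is unramified over
infinity (`p` divides the degrees) and outside of `T` and the zeros of `f` (the `h i` divide a power
of `f ∏ (X - t)`), and it is ramified over `T` and over all the zeros of `f₀`. -/
structure IsCover (f₀ f : k[X]) (T : Finset L) (w : K₀) (h : ι → L[X]) (z : ι → Ω) : Prop where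
  ne_zero : ∀ i, h i ≠ 0
  pow_eq : ∀ i, z i ^ p = aeval (algebraMap K₀ Ω w) (h i)
  infinity : ∀ i, p ∣ (h i).natDegree
  zeros : ∀ i, ∃ n : ℕ, h i ∣ (f.map (algebraMap k L) * ∏ t ∈ T, (X - C t)) ^ n
  ramified : ∀ P : L[X], Irreducible P → P ∣ f₀.map (algebraMap k L) * ∏ t ∈ T, (X - C t) →
    ∃ i, ¬ p ∣ multiplicity P (h i)
  compositum : (IntermediateField.adjoin K (Set.range (algebraMap L Ω)) : Set Ω) =
    (IntermediateField.adjoin K₀ (Set.range (algebraMap L Ω) ∪ Set.range z) : Set Ω)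

variable {K} [Algebra K₀ K]

/-- `X` has a rational point with `w = y` (which is given by a rational place of `K`), and for
`r, t ∈ T` there is `Z ∈ K^ur` with `(y - r) (w - t) Z^p = (y - t) (w - r)` which is fixed by
`s(Gal_L)`. -/
structure IsPointOf (T : Finset L) (w : K₀) (s : AbsGal k Ω →* PiOne k K Ω) (y : k) : Prop where
  point : HasPoint k (algebraMap K₀ K w) y
  value : ∀ r ∈ T, ∀ t ∈ T, ∃ Z : maxUnramified k K Ω,
    algebraMap L Ω (algebraMap k L y - r) * (algebraMap K₀ Ω w - algebraMap L Ω t) * (Z : Ω) ^ p =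
      algebraMap L Ω (algebraMap k L y - t) * (algebraMap K₀ Ω w - algebraMap L Ω r) ∧
    ∀ g : AbsGal k Ω, (∀ (x : L) (b : algebraicClosure k Ω),
      (b : Ω) = algebraMap L Ω x → g b = b) → s g Z = Z

end

/-- Let `p` be a prime number and `k / ℚ_p` a finite extension.

* For each function field `K₀ / k` in one variable, that is for each curve `X₀` over `k`, there is
  a nonconstant function `w` on `X₀` such that `w(X₀(k))` is an open subset of `ℙ¹(k)`.

* There is a finite Galois extension `L / k` of degree prime to `p` that contains the `p`-th roots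
  of unity, with the following property. Let `X₀` be a curve over `k` and `w` a function on `X₀`
  such that `w(X₀(k))` is an open subset of `ℙ¹(k)`. There is a polynomial `f₀ ≠ 0` over `k` without
  zeros in `k` (and `f₀ = 1` if `w` takes all the values `y ∈ k` at rational points of `X₀`) such
  that:

  Let `f ≠ 0` be a polynomial over `k`; if `k` contains the `p`-th roots of unity, `f` has no zero
  in `k`. Let `A` be a finite subset of `L ∖ k`. There is a finite `Gal(L / k)`-stable set `T` with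
  `A ⊆ T ⊆ L ∖ k` and `p ∣ #T` such that the following holds for all covers `X → X₀` over `k` that
  become over `L` abelian of exponent `p` and pulled back from a cover of the projective line
  (by `w`) which is ramified over the points of `T` and the zeros of `f₀` and unramified outside
  `T` and the zeros of `f`.

  `π₁(X) = Gal(K^ur / K) → Gal_k` has a section if and only if `X` has a `k`-rational point.
  Moreover, for each section `s` there is `y ∈ k` such that `X` has a rational point with `w = y`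
  and such that for all `r, t ∈ T` there is `Z ∈ K^ur` with
  `(y - r) (w - t) Z^p = (y - t) (w - r)` that is fixed by `s(Gal_L)`. -/
theorem result (p : ℕ) [Fact p.Prime] (k : Type) [Field k] [Algebra ℚ_[p] k]
    [FiniteDimensional ℚ_[p] k] :
    (∀ (K₀ : Type u) [Field K₀] [Algebra k K₀] (w₀ : K₀), Transcendental k w₀ →
      FiniteDimensional (IntermediateField.adjoin k {w₀}) K₀ → ∃ w : K₀, OpenImage p k w) ∧
    ∃ (L : Type) (_ : Field L) (_ : Algebra k L), FiniteDimensional k L ∧ IsGalois k L ∧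
      ¬ p ∣ Module.finrank k L ∧ (∃ ζ : L, IsPrimitiveRoot ζ p) ∧
      ∀ (K₀ : Type u) [Field K₀] [Algebra k K₀] (w : K₀), OpenImage p k w →
      ∃ f₀ : k[X], f₀ ≠ 0 ∧ (∀ x : k, f₀.eval x ≠ 0) ∧ ((∀ y : k, HasPoint k w y) → f₀ = 1) ∧
      ∀ (f : k[X]) (A : Finset L), f ≠ 0 →
        ((∃ ζ : k, IsPrimitiveRoot ζ p) → ∀ x : k, f.eval x ≠ 0) →
        (∀ a ∈ A, a ∉ Set.range (algebraMap k L)) →
      ∃ T : Finset L, A ⊆ T ∧ (∀ t ∈ T, t ∉ Set.range (algebraMap k L)) ∧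
        (∀ g : L ≃ₐ[k] L, ∀ t ∈ T, g t ∈ T) ∧ p ∣ T.card ∧
      ∀ (K Ω : Type u) (ι : Type v) [Field K] [Field Ω] [Algebra k K] [Algebra k Ω]
        [Algebra L Ω] [Algebra K₀ K] [Algebra K₀ Ω] [Algebra K Ω] [IsScalarTower k K₀ K]
        [IsScalarTower k K Ω] [IsScalarTower k L Ω] [IsScalarTower K₀ K Ω] [IsAlgClosure K Ω]
        (h : ι → L[X]) (z : ι → Ω), IsCover p K f₀ f T w h z →
      ((∃ s : AbsGal k Ω →* PiOne k K Ω, IsSection k K Ω s) ↔
        ∃ B : ValuationSubring K, IsRationalPlace k K B) ∧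
      ∀ s : AbsGal k Ω →* PiOne k K Ω, IsSection k K Ω s → ∃ y : k, IsPointOf p T w s y := by
  have hStep : StStep := stStep stSym stDual (stSpan stSym)
  have hChain : StChain := stChain hStep stRich
  have hFrame : StFrame := stFrame stChord stSym
  have hA1 : StA1 := stA1 stChord hFrame hChain (stBaire stSym) stSym (stMove stChord stSym)
  have hCpl : StCpl := stCpl hA1
    (stA2 stChord hFrame hStep stRich stSym (stMove stChord stSym))
    (stA3 stChord hFrame (stSpan stSym) stRich stSym) (stUniq stChord stSym)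
    (stMove stChord stSym) (stDesc stChord) stChord stSym
  have hLF : StLF := stLF stVal stHens stNR stLin stSym
  have hExt : StExt := stExt hLF stUr stAlpha stVal
  have hVn : StVn := stVn stVal
  have hGen : StGen := stGen stSym stChord
  have hRatAll : StRatAll := stRatAll
    (stRat stSym stChord hFrame (stDl stSym stE0) stInv) hGen stSym stChord
  have hOne : Bc.StOne.{u} := Bc.stOne
  have hAdd : Bc.StAdd.{u} := Bc.stAdd hOne
  have hMul : Bc.StMul.{u} := Bc.stMul hOne hAdd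
  have hHom : Bc.StHom.{u} := Bc.stHom
    (Bc.stAlt Bc.stPair (Bc.stNet stChord) hA1 stChord) hOne hAdd hMul (Bc.stFin hOne hAdd hMul)
  have hGnr : Bc.StGnr.{u} := Bc.stGnr Bc.stPrim Bc.stRes Bc.stNear
  have hCPT : Bc.StCPT.{u} := Bc.stCPT (Bc.stComp stVal) (Bc.stComp stVal) hOne hHom hGnr Bc.stInt
    (Bc.stPlc (Bc.stLoc Bc.stPrim)) Bc.stCoord Bc.stLim
  have hchk : CharZero k := charZero_of_injective_algebraMap (algebraMap ℚ_[p] k).injective
  refine ⟨?_, ?_⟩
  · -- existence of `w`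
    intro K₀ _ _ w₀ hw₀ hfin
    by_cases hB : ∃ B : ValuationSubring K₀, IsRationalPlace k K₀ B
    · obtain ⟨w, h1, h2, h3⟩ := Bc.stExW Bc.stImp Bc.stUnif Bc.stSur p inferInstance k inferInstance
        inferInstance inferInstance K₀ inferInstance inferInstance w₀ hw₀ hfin hB
      exact ⟨w, h1, h2, fun _ _ => ⟨1, one_pos, fun y _ => h3 y⟩, fun _ => ⟨0, fun y _ => h3 y⟩⟩
    · exact ⟨w₀, hw₀, hfin, fun _ ⟨B, h, _⟩ => absurd ⟨B, h⟩ hB, fun ⟨B, h, _⟩ =>
        absurd ⟨B, h⟩ hB⟩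
  obtain ⟨L, iL, iA, iD, iG, E, iE, S, ζ, a₀, ϖ, hE, hK, hSNR⟩ :=
    hExt p inferInstance k inferInstance inferInstance inferInstance
  let iQ : Algebra ℚ_[p] L := ((algebraMap k L).comp (algebraMap ℚ_[p] k)).toAlgebra
  have iT : IsScalarTower ℚ_[p] k L := IsScalarTower.of_algebraMap_eq (fun x => rfl)
  have iD' : FiniteDimensional ℚ_[p] L := Module.Finite.trans (R := ℚ_[p]) k L
  obtain ⟨R, hR⟩ := S.fin
  obtain ⟨c1, c2, c3, -⟩ := stChord p inferInstance L E iL iE S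
  obtain ⟨-, -, hpow, -⟩ := stNR p inferInstance L iL iQ iD' ζ hE.prim
  have hS : ∀ a b : L, a ≠ 0 → b ≠ 0 → ¬ SymbolNonzero p 1 a b → S.h a b = 0 :=
    fun a b ha hb hab => (hSNR a b ha hb).2 (nr_of_symbol Fact.out hpow ha hab)
  have hθ : ∃ θ : L, ∀ y : k, algebraMap k L y ≠ θ := by
    refine ⟨a₀, fun y hy => hE.a_res y ?_ (by rw [hy])⟩
    rw [hy]
    exact hE.a_int
  obtain ⟨hN1, hN2⟩ := Bc.stNm stVal p inferInstance k L E inferInstance iL iE inferInstance
    inferInstance iA iD S hE.vp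
  refine ⟨L, iL, iA, iD, iG, hE.deg, ⟨ζ, hE.prim⟩, ?_⟩
  intro K₀ _ _ w hw
  have hopen : Bc.OpenImg k S w := by
    refine ⟨fun y₀ hy₀ => ?_, fun h => ?_⟩
    · obtain ⟨ε, hε, h⟩ := hw.fin y₀ hy₀
      obtain ⟨n, hn⟩ := hN1 ε hε
      exact ⟨n, fun y hy => h y (hn _ hy)⟩
    · obtain ⟨c, hc⟩ := hw.inf h
      obtain ⟨n, hn⟩ := hN2 c
      exact ⟨n, fun y hy hyn => hc y (hn y hy hyn)⟩
  obtain ⟨f₀, A₀, hf₀, hf₀k, hf₀1, hA₀, hdata⟩ := Bc.exists_data hCPT hGnr Bc.stUnr Bc.stSupp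
    Bc.stPM.{u, v} p k L E S hE.vp hE.prim hS hθ
    (fun m => Semi.stFN p inferInstance L E iL iE S m) K₀ w hw.transcendental hw.finite hopen
  refine ⟨f₀, hf₀, hf₀k, hf₀1, ?_⟩
  intro f A hf hfk hA
  classical
  obtain ⟨T, m, hm, hAT, hC⟩ := exists_complete hCpl (stTexR (stT3 stSym)) hRatAll stChord hLF hVn
    stE0 (stBdd hVn hLF) stNR hE hK hf hfk (A := A ∪ A₀) (fun x hx y hy => by
      rcases Finset.mem_union.1 hx with hx | hx
      · exact hA x hx ⟨y, hy⟩
      · exact hA₀ x hx y hy)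
    (2 * R.card + 1)
  have hcard : R.card * 2 < T.card := by
    have := card_of_net (T := T) S hC.net c3 c1 (N := 2 * R.card + 1) hm
    omega
  refine ⟨T, Finset.union_subset_left hAT, fun t ht => ?_, hC.stable, hC.dvd_card, ?_⟩
  · rintro ⟨y, hy⟩
    exact hC.ne y t ht hy
  intro K Ω ι _ _ _ _ _ _ _ _ _ _ _ _ _ h z hz
  have hkey : ∀ s : AbsGal k Ω →* PiOne k K Ω, IsSection k K Ω s →
      ∃ y : k, IsPointOf p T w s y := by
    intro s hs
    obtain ⟨y, hy, hZ⟩ := Bc.place_omega hGen Bc.stSplit.{u, v} hSNR hpow hR hE.prim hE.deg hcard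
      hf hC (Finset.union_subset_right hAT) hw.transcendental hdata hz.ne_zero hz.pow_eq
      hz.infinity hz.zeros hz.ramified hz.compositum hs
    exact ⟨y, hy, hZ⟩
  refine ⟨⟨?_, ?_⟩, hkey⟩
  · rintro ⟨s, hs⟩
    obtain ⟨y, ⟨B, hB, -⟩, -⟩ := hkey s hs
    exact ⟨B, hB⟩
  · rintro ⟨B, hB⟩
    exact exists_section hB

end Pool.Agent.Results.MP_c385f6_ag.EveryCurve
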