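import Mathlib
import Pool.Agent.Lib.MP_c385f6_ag.Semi.Final2

set_option autoImplicit false

namespace Pool.Agent.Results.MP_c385f6_ag.RestrictedRamification

open Pool.Agent.Lib.MP_c385f6_ag Pool.Agent.Lib.MP_c385f6_ag.Semi Polynomial

/-- Let `k` be a finite extension of `ℚ_p` (`p` any prime), `K / k` an extension of transcendence
degree `1` (for example the function field of a curve `X`, or a union of such fields), and
`f ∈ k[X]` a nonconstant polynomial without zeros in `k`. Let `K_f` (`openExt k K Ω f`) be the
maximal extension of `K` that is unramified at all places of `K / k` whose residue field contains no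
zero of `f`; so ramification is allowed only over the closed points of `X` whose residue field
contains a zero of `f`, and `f = 1` would give `K^ur` and `π₁(X)`. Then:

* the section conjecture holds for all Galois extensions `N` of `K` with `K k̄ ⊆ N ⊆ K_f` that
  contain the `p`-th roots of those elements of `N` that are units at all places without zero of `f`
  in the residue field, and for the maximal pro-`p` extension of `K k̄` in such an `N`: the sections
  of `Gal(N / K) → Gal_k` up to conjugation correspond bijectively to the `k`-rational places
  of `K`; this applies to `N = K_f`;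
* it applies to `N = K^ur`, i.e. to `π₁` itself, if the value groups of the places of `K` whose
  residue fields contain a zero of `f` are `p`-divisible (ramified towers of curves);
* for example, the section conjecture holds for `π₁` (and its geometrically pro-`p` quotient) of the
  maximal extension `K'` of `K` in which all `k`-rational places of `K` split completely; the
  `k`-rational places of `K'` are all places above `k`-rational places of `K`;
* if `N₂` denotes the extension obtained from `K k̄` by adjoining twice the `p`-th roots of the
  units (at the places without zero of `f` in the residue field), then `Gal(N₂ / K) → Gal_k` has a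
  section if and only if `K` has a `k`-rational place;
* a section of `π₁(X) → Gal_k` is a section at a `k`-rational place if and only if it lifts to a
  section of `Gal(K_f / K) → Gal_k`. -/
theorem result (p : ℕ) [Fact p.Prime] {k K Ω : Type*} [Field k] [Field K] [Field Ω]
    [Algebra ℚ_[p] k] [FiniteDimensional ℚ_[p] k] [Algebra k K] [Algebra k Ω] [Algebra K Ω]
    [IsScalarTower k K Ω] [IsAlgClosure K Ω] (htr : Algebra.trdeg k K = 1) (f : k[X])
    (hf : f.natDegree ≠ 0) (h0 : ∀ c : k, f.eval c ≠ 0) :
    (∀ N : IntermediateField K Ω, RootClosed p f N →
      SectionConjecture k K Ω N ∧ SectionConjecture k K Ω (maxProP k K Ω p N)) ∧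
    RootClosed p f (openExt k K Ω f) ∧
    (ValuesDivisible K p f → RootClosed p f (maxUnramified k K Ω)) ∧
    (SectionConjecture k (totSplit k K Ω) Ω (maxUnramified k (totSplit k K Ω) Ω) ∧
      SectionConjecture k (totSplit k K Ω) Ω
        (maxProP k (totSplit k K Ω) Ω p (maxUnramified k (totSplit k K Ω) Ω)) ∧
      ∀ A : ValuationSubring (totSplit k K Ω), IsRationalPlace k (totSplit k K Ω) A ↔
        IsRationalPlace k K (A.comap (algebraMap K (totSplit k K Ω)))) ∧
    (Nonempty (Sec k K Ω (twoStep k K Ω p f)) ↔
      ∃ A : ValuationSubring K, IsRationalPlace k K A) ∧
    ∀ σ : Sec k K Ω (maxUnramified k K Ω),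
      (∃ A : ValuationSubring K, IsRationalPlace k K A ∧ σ.At A) ↔
        ∃ s : Sec k K Ω (openExt k K Ω f), s.Lifts σ := by
  have hc : CharZero k := charZero_of_injective_algebraMap (algebraMap ℚ_[p] k).injective
  have hp : p.Prime := Fact.out
  obtain ⟨h1, h2⟩ := sectionConjecture_totSplit (K := K) (Ω := Ω) p htr hf h0
  exact ⟨fun N hN => ⟨sectionConjecture p mods htr f hf h0 hN,
      sectionConjecture p mods htr f hf h0 (hN.maxProP hp.ne_zero)⟩,
    rootClosed_openExt stN hp.ne_zero f, fun h => rootClosed_maxUnramified hp h,
    ⟨h1, h2, rational_totSplit_iff htr⟩, nonempty_sec_iff p mods htr f hf h0,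
    fun σ => at_iff_lifts p mods htr f hf h0 σ⟩

end Pool.Agent.Results.MP_c385f6_ag.RestrictedRamification
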