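import Pool.Agent.Lib.MP_c385f6_ag.TPG.AllH
import Pool.Agent.Lib.MP_c385f6_ag.TPG.SupZ

/-!
# The section conjecture for curves with tame potentially good reduction

Let `k / ℚ_p` be finite and `K / k` the function field of a curve `X / k`.

`PrimeClosed p k K Ω N` says that `N` is a Galois extension of `K` in `K^ur` (`maxUnramified`) that
contains `k̄` and every `h ∈ K^ur` with `h ^ n ∈ N` for some `n` prime to `p`. The field `K^ur`, whose
Galois group over `K` is the fundamental group of `X`, is the largest such `N`, and `primeTower` is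
the smallest one; sections of `Gal(N / K) → Gal_k` restrict to sections for `primeTower`.

Let `X` have genus at least one, let `k' / k` be a finite Galois extension and `K' = K k'`, and let
`t` be a nonconstant function on `X`. `TamelyGood p k k' K' t` says:

* the normalisation of `ℙ¹` over `O_k'` with coordinate `t` in `K'` is a smooth model of `X_k'` over
  `O_k'` with a geometrically irreducible special fibre (`GoodModel`, in terms of the two charts
  `modelRing p k' t` and `modelRing p k' t⁻¹`, the integral closures of `O_k'[t]` and `O_k'[t⁻¹]` in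
  `K'`, and their ideals `modelIdeal` generated by the maximal ideal of `O_k'`);
* the inertia group of `Gal(k' / k) = Gal(K' / K)` has order prime to `p` and acts non-trivially on
  the special fibre.

So `X` has good reduction over a tamely ramified extension `k'` of `k`, but not over an unramified
one.

The theorem: for every prime closed `N` the group extension `Gal(N / K) → Gal_k` has a section if and
only if `X` has a `k`-rational point, and the sections for the smallest `N`, up to conjugation by
`Gal(N / K k̄)`, correspond to the residue classes of `k`-rational points.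

The third part is the explicit family `y ^ n = c f(t)`, `n` prime to `p`, `f` with integral
coefficients and unit leading coefficient and discriminant, `n ∣ deg f`, `v(c)` not in `n v(k^*)`:
there the sections for the smallest `N`, up to conjugation, correspond to the zeros of `f` in `k`.
-/

set_option autoImplicit false

open Polynomial

namespace Pool.Agent.Results.MP_c385f6_ag.TamePotentialGoodReduction

open Pool.Agent.Lib.MP_c385f6_ag Pool.Agent.Lib.MP_c385f6_ag.TPG
open Pool.Agent.Lib.MP_c385f6_ag.Semi (Sec)

universe u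

/-- The smallest prime closed field is prime closed. -/
theorem primeTower_primeClosed (p : ℕ) (k : Type) (K Ω : Type u) [Field k] [CharZero k] [Field K]
    [Field Ω] [Algebra k K] [Algebra k Ω] [Algebra K Ω] [IsScalarTower k K Ω]
    [IsAlgClosure K Ω] : PrimeClosed p k K Ω (primeTower p k K Ω) := by
  have hcK : CharZero K := charZero_of_injective_algebraMap (algebraMap k K).injective
  have halgK : Algebra.IsAlgebraic K Ω := IsAlgClosure.isAlgebraic
  have hur : PrimeClosed p k K Ω (maxUnramified k K Ω) := HPC.ur_primeClosed p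
  have hmem : ∀ x : Ω, x ∈ primeTower p k K Ω ↔ ∀ N, PrimeClosed p k K Ω N → x ∈ N := by
    intro x
    rw [primeTower, IntermediateField.mem_sInf]
    rfl
  have hn : Normal K (primeTower p k K Ω) := by
    rw [IntermediateField.normal_iff_forall_map_le']
    rintro σ _ ⟨x, hx, rfl⟩
    rw [hmem]
    intro N hN
    have : Normal K N := hN.galois.to_normal
    exact (IntermediateField.normal_iff_forall_map_le'.1 this) σ
      ⟨x, (hmem x).1 hx N hN, rfl⟩
  refine ⟨⟨⟩, fun x hx => (hmem x).1 hx _ hur, fun c => (hmem _).2 fun N hN => hN.const c, ?_⟩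
  intro n h hpn hh hn'
  exact (hmem h).2 fun N hN => hN.root n h hpn hh ((hmem _).1 hn' N hN)

theorem result (p : ℕ) [Fact p.Prime] (k : Type) (K Ω : Type u) [Field k] [Field K] [Field Ω]
    [Algebra ℚ_[p] k] [FiniteDimensional ℚ_[p] k] [Algebra k K] [Algebra k Ω] [Algebra K Ω]
    [IsScalarTower k K Ω] [IsAlgClosure K Ω] :
    (PrimeClosed p k K Ω (maxUnramified k K Ω) ∧ PrimeClosed p k K Ω (primeTower p k K Ω) ∧
      ∀ N : IntermediateField K Ω, PrimeClosed p k K Ω N → primeTower p k K Ω ≤ N ∧
        ∀ s : Sec k K Ω N, ∃ s₀ : Sec k K Ω (primeTower p k K Ω), s.Lifts s₀) ∧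
    (∀ (k' : Type) (K' : Type u) [Field k'] [Field K'] [Algebra ℚ_[p] k']
      [FiniteDimensional ℚ_[p] k'] [Algebra k k'] [IsScalarTower ℚ_[p] k k'] [IsGalois k k']
      [Algebra k' K'] [Algebra K K'] [Algebra k K'] [IsScalarTower k k' K']
      [IsScalarTower k K K'] (t : K), TamelyGood p k k' K' t →
      (∀ z : Ω, IntermediateField.adjoin (algebraicClosure k Ω) {z} ≠
        IntermediateField.adjoin (algebraicClosure k Ω) (Set.range (algebraMap K Ω))) →
      (∀ N : IntermediateField K Ω, PrimeClosed p k K Ω N →
        (Nonempty (Sec k K Ω N) ↔ ∃ A : ValuationSubring K, IsRationalPlace k K A)) ∧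
      (∀ s : Sec k K Ω (primeTower p k K Ω), ∃ A : ValuationSubring K,
        IsRationalPlace k K A ∧ s.At A) ∧
      (∀ A : ValuationSubring K, IsRationalPlace k K A →
        ∃ s : Sec k K Ω (primeTower p k K Ω), s.At A) ∧
      ∀ (s s' : Sec k K Ω (primeTower p k K Ω)) (A A' : ValuationSubring K),
        IsRationalPlace k K A → IsRationalPlace k K A' → s.At A → s'.At A' →
        (s.Conj s' ↔ SameRed p k t A A')) ∧
    ∀ (n : ℕ) (f : k[X]) (c : k) (t y : K), 2 ≤ n → ¬ p ∣ n → 3 ≤ f.natDegree →
      n ∣ f.natDegree → (∀ i, spectralNorm ℚ_[p] k (f.coeff i) ≤ 1) →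
      spectralNorm ℚ_[p] k f.leadingCoeff = 1 → spectralNorm ℚ_[p] k f.discr = 1 →
      (∀ b : k, spectralNorm ℚ_[p] k b ^ n ≠ spectralNorm ℚ_[p] k c) →
      Transcendental k t → y ^ n = algebraMap k K c * aeval t f →
      IntermediateField.adjoin k {t, y} = ⊤ →
      (∀ N : IntermediateField K Ω, PrimeClosed p k K Ω N →
        (Nonempty (Sec k K Ω N) ↔ ∃ a : k, f.eval a = 0)) ∧
      ∃ z : Sec k K Ω (primeTower p k K Ω) → {a : k // f.eval a = 0},
        Function.Surjective z ∧ (∀ s s', s.Conj s' ↔ z s = z s') ∧
        ∀ s, ∃ A : ValuationSubring K, IsRationalPlace k K A ∧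
          A.valuation (t - algebraMap k K (z s)) < 1 ∧ s.At A := by
  have h0 : CharZero k := charZero_of_injective_algebraMap (algebraMap ℚ_[p] k).injective
  have hT := primeTower_primeClosed p k K Ω
  refine ⟨⟨HPC.ur_primeClosed p, hT, AllH.lifts p k K Ω hT⟩, ?_, ?_⟩
  · intro k' K' _ _ _ _ _ _ _ _ _ _ _ _ t ht hg
    obtain ⟨h1, -, h3, h4, h5⟩ := AllH.fin p k k' K K' Ω t ht hg
    exact ⟨h1, h3, h4, h5⟩
  · intro n f c t y hn hp h3 hdvd hf hl hdisc hc ht hy hgen
    exact Sup.family p k K Ω hn hp hf hl hdisc h3 hdvd hc ht hy hgen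

end Pool.Agent.Results.MP_c385f6_ag.TamePotentialGoodReduction
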